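import Pool.Agent.P8H17.UL.Stm

/-!
# Project UL, package FA: the parameter `x / y` is additive modulo squares
-/

set_option autoImplicit false

open WeierstrassCurve

namespace Pool.Agent.P8H29.UL

open Pool.Agent.P8H17.UL

/-- `‖x‖ ≤ D ^ n` -/
def Le {Ω : Type} [NormedField Ω] (D : ℝ) (n : ℕ) (x : Ω) : Prop := ‖x‖ ≤ D ^ n

/-- the nonarchimedean inequality and `0 ≤ D < 1` -/
structure Ctx (Ω : Type) [NormedField Ω] (D : ℝ) : Prop where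
  na : ∀ x y : Ω, ‖x + y‖ ≤ max ‖x‖ ‖y‖
  h0 : 0 ≤ D
  h1 : D < 1

section

variable {Ω : Type} [NormedField Ω] {D : ℝ}

lemma Ctx.add (c : Ctx Ω D) {n : ℕ} {x y : Ω} (hx : Le D n x) (hy : Le D n y) : Le D n (x + y) :=
  (c.na x y).trans (max_le hx hy)

lemma Ctx.neg (_ : Ctx Ω D) {n : ℕ} {x : Ω} (hx : Le D n x) : Le D n (-x) := by
  unfold Le at *
  rwa [norm_neg]

lemma Ctx.sub (c : Ctx Ω D) {n : ℕ} {x y : Ω} (hx : Le D n x) (hy : Le D n y) :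
    Le D n (x - y) := by
  rw [sub_eq_add_neg]
  exact c.add hx (c.neg hy)

lemma Ctx.mul (c : Ctx Ω D) {n m : ℕ} {x y : Ω} (hx : Le D n x) (hy : Le D m y) :
    Le D (n + m) (x * y) := by
  unfold Le at *
  rw [norm_mul, pow_add]
  exact mul_le_mul hx hy (norm_nonneg _) (pow_nonneg c.h0 _)

lemma Ctx.mono (c : Ctx Ω D) {n m : ℕ} {x : Ω} (h : n ≤ m) (hx : Le D m x) : Le D n x :=
  hx.trans (pow_le_pow_of_le_one c.h0 c.h1.le h)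

lemma Ctx.pow (_ : Ctx Ω D) {n : ℕ} {x : Ω} (hx : Le D n x) (k : ℕ) : Le D (n * k) (x ^ k) := by
  unfold Le at *
  rw [norm_pow, pow_mul]
  exact pow_le_pow_left₀ (norm_nonneg _) hx k

lemma Ctx.one (_ : Ctx Ω D) : Le D 0 (1 : Ω) := by
  unfold Le
  simp

lemma Ctx.two (c : Ctx Ω D) : Le D 0 (2 : Ω) := by
  have := c.add c.one c.one
  rwa [one_add_one_eq_two] at this

lemma Ctx.three (c : Ctx Ω D) : Le D 0 (3 : Ω) := by
  have := c.add c.two c.one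
  rwa [two_add_one_eq_three] at this

lemma Ctx.unit (c : Ctx Ω D) {x : Ω} (hx : Le D 1 x) : ‖1 + x‖ = 1 := by
  have h1 : ‖x‖ < 1 := lt_of_le_of_lt hx (by rw [pow_one]; exact c.h1)
  apply le_antisymm
  · refine (c.na 1 x).trans (max_le ?_ h1.le)
    rw [norm_one]
  · have h2 := c.na (1 + x) (-x)
    rw [norm_neg, add_neg_cancel_right, norm_one] at h2
    rcases le_max_iff.1 h2 with h | h
    · exact h
    · linarith

lemma Ctx.ne (c : Ctx Ω D) {x : Ω} (hx : Le D 1 x) : 1 + x ≠ 0 := by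
  intro h
  have := c.unit hx
  rw [h, norm_zero] at this
  exact zero_ne_one this

lemma Ctx.div (c : Ctx Ω D) {n : ℕ} {x y : Ω} (hx : Le D n x) (hy : Le D 1 y) :
    Le D n (x / (1 + y)) := by
  unfold Le at *
  rw [norm_div, c.unit hy, div_one]
  exact hx

lemma Ctx.le0 (_ : Ctx Ω D) {x : Ω} (h : ‖x‖ ≤ 1) : Le D 0 x := by
  unfold Le
  rwa [pow_zero]

end

section size

variable {Ω : Type} [NormedField Ω]

/-- the norm of `y` -/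
lemma size_y (na : ∀ x y : Ω, ‖x + y‖ ≤ max ‖x‖ ‖y‖) {V : WeierstrassCurve Ω} (hV : IntW V)
    {x y : Ω} (h : V.toAffine.Nonsingular x y) (hx : 1 < ‖x‖) : ‖y‖ ^ 2 = ‖x‖ ^ 3 := by
  have he : y ^ 2 + V.a₁ * x * y + V.a₃ * y = x ^ 3 + V.a₂ * x ^ 2 + V.a₄ * x + V.a₆ :=
    (Affine.equation_iff _ _).1 h.1
  have m : ∀ {a b : Ω} {r : ℝ}, ‖a‖ ≤ r → ‖b‖ ≤ r → ‖a + b‖ ≤ r :=
    fun ha hb => (na _ _).trans (max_le ha hb)
  have h1 := hV.h1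
  have h2 := hV.h2
  have h3 := hV.h3
  have h4 := hV.h4
  have h6 := hV.h6
  have x0 : 0 < ‖x‖ := by linarith
  have x2 : ‖x‖ ≤ ‖x‖ ^ 2 := by nlinarith
  have x3 : ‖x‖ ^ 2 < ‖x‖ ^ 3 := by nlinarith [pow_pos x0 2]
  have y0 := norm_nonneg y
  -- the right side
  have r1 : ‖V.a₂ * x ^ 2 + V.a₄ * x + V.a₆‖ ≤ ‖x‖ ^ 2 := by
    refine m (m ?_ ?_) ?_
    · rw [norm_mul, norm_pow]
      nlinarith [pow_pos x0 2]
    · rw [norm_mul]
      nlinarith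
    · nlinarith
  have r2 : ‖x‖ ^ 3 ≤ ‖x ^ 3 + V.a₂ * x ^ 2 + V.a₄ * x + V.a₆‖ := by
    by_contra hc
    push Not at hc
    have := na (x ^ 3 + V.a₂ * x ^ 2 + V.a₄ * x + V.a₆) (-(V.a₂ * x ^ 2 + V.a₄ * x + V.a₆))
    rw [norm_neg] at this
    have e : x ^ 3 + V.a₂ * x ^ 2 + V.a₄ * x + V.a₆ + -(V.a₂ * x ^ 2 + V.a₄ * x + V.a₆) = x ^ 3 := by
      ring
    rw [e, norm_pow] at this
    rcases le_max_iff.1 this with h | h
    · linarith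
    · linarith
  have r3 : ‖x ^ 3 + V.a₂ * x ^ 2 + V.a₄ * x + V.a₆‖ ≤ ‖x‖ ^ 3 := by
    have e : x ^ 3 + V.a₂ * x ^ 2 + V.a₄ * x + V.a₆ = x ^ 3 + (V.a₂ * x ^ 2 + V.a₄ * x + V.a₆) := by
      ring
    rw [e]
    refine m ?_ (r1.trans x3.le)
    rw [norm_pow]
  -- the left side
  have l1 : ‖V.a₁ * x * y + V.a₃ * y‖ ≤ ‖x‖ * ‖y‖ := by
    refine m ?_ ?_
    · rw [norm_mul, norm_mul]
      have : ‖V.a₁‖ * ‖x‖ ≤ ‖x‖ := by nlinarith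
      exact mul_le_mul_of_nonneg_right this y0
    · rw [norm_mul]
      exact mul_le_mul_of_nonneg_right (by linarith) y0
  have hyx : ‖x‖ < ‖y‖ := by
    by_contra hc
    push Not at hc
    have : ‖y ^ 2 + V.a₁ * x * y + V.a₃ * y‖ ≤ ‖x‖ ^ 2 := by
      have e : y ^ 2 + V.a₁ * x * y + V.a₃ * y = y ^ 2 + (V.a₁ * x * y + V.a₃ * y) := by ring
      rw [e]
      refine m ?_ (l1.trans (by nlinarith))
      rw [norm_pow]
      nlinarith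
    rw [he] at this
    linarith
  have hxy : ‖x‖ * ‖y‖ < ‖y‖ ^ 2 := by nlinarith
  apply le_antisymm
  · have := na (y ^ 2 + V.a₁ * x * y + V.a₃ * y) (-(V.a₁ * x * y + V.a₃ * y))
    rw [norm_neg] at this
    have e : y ^ 2 + V.a₁ * x * y + V.a₃ * y + -(V.a₁ * x * y + V.a₃ * y) = y ^ 2 := by
      ring
    rw [e, norm_pow, he] at this
    rcases le_max_iff.1 this with h | h
    · linarith
    · linarith
  · rw [he.symm] at r2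
    refine r2.trans ?_
    have e : y ^ 2 + V.a₁ * x * y + V.a₃ * y = y ^ 2 + (V.a₁ * x * y + V.a₃ * y) := by ring
    rw [e]
    refine m ?_ (l1.trans hxy.le)
    rw [norm_pow]

/-- part one of `S_FA` -/
lemma fa1 (na : ∀ x y : Ω, ‖x + y‖ ≤ max ‖x‖ ‖y‖) {V : WeierstrassCurve Ω} (hV : IntW V)
    {x y : Ω} (h : V.toAffine.Nonsingular x y) (hx : 1 < ‖x‖) :
    y ≠ 0 ∧ ‖x / y‖ ^ 2 * ‖x‖ = 1 := by
  have hs := size_y na hV h hx
  have x0 : 0 < ‖x‖ := by linarith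
  have hy : y ≠ 0 := by
    rintro rfl
    rw [norm_zero] at hs
    have := pow_pos x0 3
    norm_num at hs
    rw [← hs] at this
    exact lt_irrefl _ this
  refine ⟨hy, ?_⟩
  rw [norm_div, div_pow, hs]
  field_simp

/-- the bounds for the coordinates at infinity -/
lemma fa_zw (na : ∀ x y : Ω, ‖x + y‖ ≤ max ‖x‖ ‖y‖) {V : WeierstrassCurve Ω} (hV : IntW V)
    {x y : Ω} (h : V.toAffine.Nonsingular x y) (hx : 1 < ‖x‖) :
    ‖x / y‖ < 1 ∧ ‖y⁻¹‖ = ‖x / y‖ ^ 3 := by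
  obtain ⟨hy, h1⟩ := fa1 na hV h hx
  have hs := size_y na hV h hx
  have z0 := norm_nonneg (x / y)
  have x0 : 0 < ‖x‖ := by linarith
  constructor
  · by_contra hc
    push Not at hc
    have h2 : 1 ≤ ‖x / y‖ ^ 2 := one_le_pow₀ hc
    nlinarith
  · have h2 : ‖y⁻¹‖ ^ 2 = (‖x / y‖ ^ 3) ^ 2 := by
      rw [norm_inv, inv_pow, hs, norm_div]
      have : ((‖x‖ / ‖y‖) ^ 3) ^ 2 = (‖x‖ ^ 3) ^ 2 / (‖y‖ ^ 2) ^ 3 := by
        rw [div_pow, div_pow]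
        congr 1
        ring
      rw [this, hs]
      field_simp
    exact (pow_left_inj₀ (norm_nonneg _) (pow_nonneg z0 3) (by norm_num)).1 h2

/-- the parameter of the negative -/
lemma fa_neg (na : ∀ x y : Ω, ‖x + y‖ ≤ max ‖x‖ ‖y‖) {V : WeierstrassCurve Ω} (hV : IntW V)
    {x y : Ω} (h : V.toAffine.Nonsingular x y) (hx : 1 < ‖x‖) :
    ‖x / V.toAffine.negY x y + x / y‖ ≤ ‖x / y‖ ^ 2 := by
  obtain ⟨hy, h1⟩ := fa1 na hV h hx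
  obtain ⟨hz, hw⟩ := fa_zw na hV h hx
  set z := x / y with hz'
  set w := y⁻¹ with hw'
  have c : Ctx Ω ‖z‖ := ⟨na, norm_nonneg _, hz⟩
  have Lz : Le ‖z‖ 1 z := by
    unfold Le
    rw [pow_one]
  have Lw : Le ‖z‖ 3 w := by
    unfold Le
    rw [hw]
  have La1 := c.le0 hV.h1
  have La3 := c.le0 hV.h3
  have Ls : Le ‖z‖ 1 (V.a₁ * z + V.a₃ * w) :=
    c.add (c.mul La1 Lz) (c.mono (by norm_num) (c.mul La3 Lw))
  have hne := c.ne Ls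
  have e : x / V.toAffine.negY x y + z = z * (V.a₁ * z + V.a₃ * w) / (1 + (V.a₁ * z + V.a₃ * w)) := by
    have hn : V.toAffine.negY x y = -y * (1 + (V.a₁ * z + V.a₃ * w)) := by
      rw [hz', hw']
      unfold Affine.negY
      field_simp
      ring
    have hx' : x = z * y := by rw [hz']; field_simp
    rw [hn]
    clear_value z w
    rw [hx']
    generalize V.a₁ * z + V.a₃ * w = s at hne ⊢
    field_simp
    ring
  rw [e]
  have := c.div (c.mul Lz Ls) Ls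
  unfold Le at this
  exact this

end size

section algebra

variable {Ω : Type} [Field Ω] {V : WeierstrassCurve Ω}

/-- the equation at infinity -/
lemma eq_zw {x y z w : Ω} (hz : z * y = x) (hw : w * y = 1)
    (he : y ^ 2 + V.a₁ * x * y + V.a₃ * y = x ^ 3 + V.a₂ * x ^ 2 + V.a₄ * x + V.a₆) :
    w + V.a₁ * z * w + V.a₃ * w ^ 2 =
      z ^ 3 + V.a₂ * z ^ 2 * w + V.a₄ * z * w ^ 2 + V.a₆ * w ^ 3 := by
  have hy : y ≠ 0 := right_ne_zero_of_mul_eq_one hw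
  have hw' : w = y⁻¹ := eq_inv_of_mul_eq_one_left hw
  subst hz hw'
  field_simp
  linear_combination he

/-- the tangent line -/
lemma tan_alg {x y z w l : Ω} (hz : z * y = x) (hw : w * y = 1)
    (he : y ^ 2 + V.a₁ * x * y + V.a₃ * y = x ^ 3 + V.a₂ * x ^ 2 + V.a₄ * x + V.a₆)
    (hl : l * (1 + (V.a₁ * z + V.a₃ * (w + w) - V.a₂ * z ^ 2 - V.a₄ * (z * (w + w)) -
      V.a₆ * (w ^ 2 + w * w + w ^ 2))) =
      z ^ 2 + z * z + z ^ 2 - V.a₁ * w + V.a₂ * (w * (z + z)) + V.a₄ * w ^ 2) :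
    l * (y ^ 2 * (1 + (V.a₁ * z + V.a₃ * (w + w) - V.a₂ * z ^ 2 - V.a₄ * (z * (w + w)) -
      V.a₆ * (w ^ 2 + w * w + w ^ 2)))) = 3 * x ^ 2 + 2 * V.a₂ * x + V.a₄ - V.a₁ * y ∧
    (w - l * z) * (y ^ 2 * (1 + (V.a₁ * z + V.a₃ * (w + w) - V.a₂ * z ^ 2 -
      V.a₄ * (z * (w + w)) - V.a₆ * (w ^ 2 + w * w + w ^ 2)))) = -(2 * y + V.a₁ * x + V.a₃) := by
  have hy : y ≠ 0 := right_ne_zero_of_mul_eq_one hw
  have hw' : w = y⁻¹ := eq_inv_of_mul_eq_one_left hw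
  have h1 : l * (y ^ 2 * (1 + (V.a₁ * z + V.a₃ * (w + w) - V.a₂ * z ^ 2 - V.a₄ * (z * (w + w)) -
      V.a₆ * (w ^ 2 + w * w + w ^ 2)))) = 3 * x ^ 2 + 2 * V.a₂ * x + V.a₄ - V.a₁ * y := by
    have : l * (y ^ 2 * (1 + (V.a₁ * z + V.a₃ * (w + w) - V.a₂ * z ^ 2 - V.a₄ * (z * (w + w)) -
      V.a₆ * (w ^ 2 + w * w + w ^ 2)))) = y ^ 2 *
      (z ^ 2 + z * z + z ^ 2 - V.a₁ * w + V.a₂ * (w * (z + z)) + V.a₄ * w ^ 2) := by
      rw [← hl]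
      ring
    rw [this]
    subst hz hw'
    field_simp
    ring
  have h2 : y ^ 2 * (1 + (V.a₁ * z + V.a₃ * (w + w) - V.a₂ * z ^ 2 - V.a₄ * (z * (w + w)) -
      V.a₆ * (w ^ 2 + w * w + w ^ 2))) = x * (3 * x ^ 2 + 2 * V.a₂ * x + V.a₄ - V.a₁ * y) -
      y * (2 * y + V.a₁ * x + V.a₃) := by
    subst hz hw'
    field_simp
    linear_combination 3 * he
  refine ⟨h1, ?_⟩
  apply mul_right_cancel₀ hy
  have e : (w - l * z) * (y ^ 2 * (1 + (V.a₁ * z + V.a₃ * (w + w) - V.a₂ * z ^ 2 -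
      V.a₄ * (z * (w + w)) - V.a₆ * (w ^ 2 + w * w + w ^ 2)))) * y =
      y ^ 2 * (1 + (V.a₁ * z + V.a₃ * (w + w) - V.a₂ * z ^ 2 -
      V.a₄ * (z * (w + w)) - V.a₆ * (w ^ 2 + w * w + w ^ 2))) * (w * y) -
      l * (y ^ 2 * (1 + (V.a₁ * z + V.a₃ * (w + w) - V.a₂ * z ^ 2 -
      V.a₄ * (z * (w + w)) - V.a₆ * (w ^ 2 + w * w + w ^ 2)))) * (z * y) := by ring
  rw [e, h1, hz, hw, h2]
  ring

open scoped Classical in
/-- the slope -/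
lemma slope_eq {x₁ y₁ x₂ y₂ L : Ω} (hxy : ¬ (x₁ = x₂ ∧ y₁ = V.toAffine.negY x₂ y₂))
    (hL : L * (x₁ - x₂) = y₁ - y₂)
    (hL2 : L * (y₁ + y₂ + V.a₁ * x₂ + V.a₃) =
      x₁ ^ 2 + x₁ * x₂ + x₂ ^ 2 + V.a₂ * (x₁ + x₂) + V.a₄ - V.a₁ * y₁) :
    V.toAffine.slope x₁ x₂ y₁ y₂ = L := by
  by_cases hx : x₁ = x₂
  · have hy : y₁ ≠ V.toAffine.negY x₂ y₂ := fun h => hxy ⟨hx, h⟩
    rw [Affine.slope_of_Y_ne hx hy]
    have hy2 : y₁ = y₂ := by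
      rw [hx, sub_self, mul_zero] at hL
      exact (sub_eq_zero.1 hL.symm)
    subst hx hy2
    have hne : y₁ - V.toAffine.negY x₁ y₁ ≠ 0 := sub_ne_zero.2 hy
    rw [div_eq_iff hne]
    unfold Affine.negY
    linear_combination -hL2
  · rw [Affine.slope_of_X_ne hx, div_eq_iff (sub_ne_zero.2 hx)]
    exact hL.symm

end algebra

section sum

variable {Ω : Type} [NormedField Ω] {V : WeierstrassCurve Ω}

lemma fa_sum (na : ∀ x y : Ω, ‖x + y‖ ≤ max ‖x‖ ‖y‖) (hV : IntW V) {x₁ y₁ x₂ y₂ : Ω}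
    (h₁ : V.toAffine.Nonsingular x₁ y₁) (h₂ : V.toAffine.Nonsingular x₂ y₂)
    (b₁ : 1 < ‖x₁‖) (b₂ : 1 < ‖x₂‖) (hxy : ¬ (x₁ = x₂ ∧ y₁ = V.toAffine.negY x₂ y₂)) :
    ∃ (x₃ y₃ : Ω) (h₃ : V.toAffine.Nonsingular x₃ y₃), pt h₁ + pt h₂ = pt h₃ ∧ 1 < ‖x₃‖ ∧
      ‖x₃ / y₃ - x₁ / y₁ - x₂ / y₂‖ ≤ (max ‖x₁ / y₁‖ ‖x₂ / y₂‖) ^ 2 := by
  classical
  obtain ⟨n₁, -⟩ := fa1 na hV h₁ b₁
  obtain ⟨n₂, -⟩ := fa1 na hV h₂ b₂
  obtain ⟨sz₁, sw₁⟩ := fa_zw na hV h₁ b₁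
  obtain ⟨sz₂, sw₂⟩ := fa_zw na hV h₂ b₂
  have he₁ : y₁ ^ 2 + V.a₁ * x₁ * y₁ + V.a₃ * y₁ = x₁ ^ 3 + V.a₂ * x₁ ^ 2 + V.a₄ * x₁ + V.a₆ :=
    (Affine.equation_iff _ _).1 h₁.1
  have he₂ : y₂ ^ 2 + V.a₁ * x₂ * y₂ + V.a₃ * y₂ = x₂ ^ 3 + V.a₂ * x₂ ^ 2 + V.a₄ * x₂ + V.a₆ :=
    (Affine.equation_iff _ _).1 h₂.1
  obtain ⟨z₁, hz₁⟩ : ∃ z, z = x₁ / y₁ := ⟨_, rfl⟩
  obtain ⟨z₂, hz₂⟩ : ∃ z, z = x₂ / y₂ := ⟨_, rfl⟩
  obtain ⟨w₁, hw₁⟩ : ∃ w, w = y₁⁻¹ := ⟨_, rfl⟩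
  obtain ⟨w₂, hw₂⟩ : ∃ w, w = y₂⁻¹ := ⟨_, rfl⟩
  rw [← hz₁] at sz₁ sw₁
  rw [← hw₁] at sw₁
  rw [← hz₂] at sz₂ sw₂
  rw [← hw₂] at sw₂
  rw [← hz₁, ← hz₂]
  have zy₁ : z₁ * y₁ = x₁ := by rw [hz₁]; field_simp
  have zy₂ : z₂ * y₂ = x₂ := by rw [hz₂]; field_simp
  have wy₁ : w₁ * y₁ = 1 := by rw [hw₁]; field_simp
  have wy₂ : w₂ * y₂ = 1 := by rw [hw₂]; field_simp
  have E₁ := eq_zw zy₁ wy₁ he₁
  have E₂ := eq_zw zy₂ wy₂ he₂
  obtain ⟨D, hD⟩ : ∃ D : ℝ, D = max ‖z₁‖ ‖z₂‖ := ⟨_, rfl⟩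
  have D1 : D < 1 := by rw [hD]; exact max_lt sz₁ sz₂
  have D0 : 0 ≤ D := by rw [hD]; exact le_max_of_le_left (norm_nonneg _)
  have c : Ctx Ω D := ⟨na, D0, D1⟩
  have Lz₁ : Le D 1 z₁ := by unfold Le; rw [pow_one, hD]; exact le_max_left _ _
  have Lz₂ : Le D 1 z₂ := by unfold Le; rw [pow_one, hD]; exact le_max_right _ _
  have Lw₁ : Le D 3 w₁ := by
    unfold Le
    rw [sw₁]
    exact pow_le_pow_left₀ (norm_nonneg _) (by rw [hD]; exact le_max_left _ _) 3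
  have Lw₂ : Le D 3 w₂ := by
    unfold Le
    rw [sw₂]
    exact pow_le_pow_left₀ (norm_nonneg _) (by rw [hD]; exact le_max_right _ _) 3
  have A1 := c.le0 hV.h1
  have A2 := c.le0 hV.h2
  have A3 := c.le0 hV.h3
  have A4 := c.le0 hV.h4
  have A6 := c.le0 hV.h6
  rw [← hD]
  clear hD sz₁ sz₂ sw₁ sw₂
  obtain ⟨U, hU⟩ : ∃ U, U = V.a₁ * z₂ + V.a₃ * (w₁ + w₂) - V.a₂ * z₂ ^ 2 - V.a₄ * (z₂ * (w₁ + w₂)) -
      V.a₆ * (w₁ ^ 2 + w₁ * w₂ + w₂ ^ 2) := ⟨_, rfl⟩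
  obtain ⟨W, hW⟩ : ∃ W, W = z₁ ^ 2 + z₁ * z₂ + z₂ ^ 2 - V.a₁ * w₁ + V.a₂ * (w₁ * (z₁ + z₂)) +
      V.a₄ * w₁ ^ 2 := ⟨_, rfl⟩
  have LU : Le D 1 U := by
    rw [hU]
    refine c.sub (c.sub (c.sub (c.add ?_ ?_) ?_) ?_) ?_
    · exact c.mul A1 Lz₂
    · exact c.mono (by norm_num) (c.mul A3 (c.add Lw₁ Lw₂))
    · exact c.mono (by norm_num) (c.mul A2 (c.pow Lz₂ 2))
    · exact c.mono (by norm_num) (c.mul A4 (c.mul Lz₂ (c.add Lw₁ Lw₂)))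
    · exact c.mono (by norm_num) (c.mul A6 (c.add (c.add (c.pow Lw₁ 2) (c.mul Lw₁ Lw₂))
        (c.pow Lw₂ 2)))
  have LW : Le D 2 W := by
    rw [hW]
    refine c.add (c.add (c.sub (c.add (c.add (c.pow Lz₁ 2) (c.mul Lz₁ Lz₂)) (c.pow Lz₂ 2)) ?_) ?_) ?_
    · exact c.mono (by norm_num) (c.mul A1 Lw₁)
    · exact c.mono (by norm_num) (c.mul A2 (c.mul Lw₁ (c.add Lz₁ Lz₂)))
    · exact c.mono (by norm_num) (c.mul A4 (c.pow Lw₁ 2))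
  have U1 := c.ne LU
  obtain ⟨l, hl⟩ : ∃ l, l = W / (1 + U) := ⟨_, rfl⟩
  have Ll : Le D 2 l := by rw [hl]; exact c.div LW LU
  have hlU : l * (1 + U) = W := by rw [hl]; field_simp
  have chord : l * (z₂ - z₁) = w₂ - w₁ := by
    apply mul_right_cancel₀ U1
    have : l * (z₂ - z₁) * (1 + U) = (z₂ - z₁) * W := by rw [← hlU]; ring
    rw [this, hU, hW]
    linear_combination E₁ - E₂
  obtain ⟨m, hm⟩ : ∃ m, m = w₁ - l * z₁ := ⟨_, rfl⟩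
  have Lm : Le D 3 m := by
    rw [hm]
    exact c.sub Lw₁ (c.mul Ll Lz₁)
  have k₁ : l * x₁ + m * y₁ = 1 := by
    rw [hm, ← zy₁, ← wy₁]
    ring
  have k₂ : l * x₂ + m * y₂ = 1 := by
    have hm2 : m = w₂ - l * z₂ := by rw [hm]; linear_combination chord
    rw [hm2, ← zy₂, ← wy₂]
    ring
  -- the tangent case
  have tang : x₁ = x₂ → y₁ = y₂ → ∃ K : Ω, K ≠ 0 ∧
      l * K = 3 * x₁ ^ 2 + 2 * V.a₂ * x₁ + V.a₄ - V.a₁ * y₁ ∧
      m * K = -(2 * y₁ + V.a₁ * x₁ + V.a₃) := by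
    intro ex ey
    have ez : z₂ = z₁ := by rw [hz₁, hz₂, ex, ey]
    have ew : w₂ = w₁ := by rw [hw₁, hw₂, ey]
    rw [ez, ew] at hU
    rw [ez] at hW
    rw [hU, hW] at hlU
    rw [hU] at U1
    obtain ⟨t1, t2⟩ := tan_alg zy₁ wy₁ he₁ hlU
    refine ⟨_, mul_ne_zero (pow_ne_zero 2 n₁) U1, t1, ?_⟩
    rw [hm]
    exact t2
  have hm0 : m ≠ 0 := by
    intro h0
    rw [h0, zero_mul, add_zero] at k₁ k₂
    have hl0 : l ≠ 0 := left_ne_zero_of_mul_eq_one k₁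
    have ex : x₁ = x₂ := mul_left_cancel₀ hl0 (k₁.trans k₂.symm)
    have ey : y₁ = y₂ := by
      rcases Affine.Y_eq_of_X_eq h₁.1 h₂.1 ex with h | h
      · exact h
      · exact absurd ⟨ex, h⟩ hxy
    obtain ⟨K, hK, -, t2⟩ := tang ex ey
    rw [h0, zero_mul] at t2
    apply hxy
    refine ⟨ex, ?_⟩
    rw [← ex, ← ey]
    unfold Affine.negY
    linear_combination t2
  obtain ⟨L, hL⟩ : ∃ L, L = -l / m := ⟨_, rfl⟩
  have hLm : l = -(L * m) := by rw [hL]; field_simp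
  have r₁ : L * (x₁ - x₂) = y₁ - y₂ := by
    apply mul_right_cancel₀ hm0
    have : L * (x₁ - x₂) * m = (L * m) * (x₁ - x₂) := by ring
    rw [this, show L * m = -l by rw [hLm]; ring]
    linear_combination k₂ - k₁
  have r₂ : L * (y₁ + y₂ + V.a₁ * x₂ + V.a₃) =
      x₁ ^ 2 + x₁ * x₂ + x₂ ^ 2 + V.a₂ * (x₁ + x₂) + V.a₄ - V.a₁ * y₁ := by
    by_cases ex : x₁ = x₂
    · have ey : y₁ = y₂ := by
        rw [ex, sub_self, mul_zero] at r₁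
        exact sub_eq_zero.1 r₁.symm
      obtain ⟨K, hK, t1, t2⟩ := tang ex ey
      rw [← ex, ← ey]
      have t3 : 2 * y₁ + V.a₁ * x₁ + V.a₃ = -(m * K) := by rw [t2]; ring
      have t4 : y₁ + y₁ + V.a₁ * x₁ + V.a₃ = -(m * K) := by rw [← t3]; ring
      rw [t4]
      have t5 : L * -(m * K) = l * K := by rw [hLm]; ring
      rw [t5, t1]
      ring
    · apply mul_right_cancel₀ (sub_ne_zero.2 ex)
      linear_combination (y₁ + y₂ + V.a₁ * x₂ + V.a₃) * r₁ + he₁ - he₂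
  have hslope := slope_eq hxy r₁ r₂
  -- the third point
  obtain ⟨x₃, hx₃⟩ : ∃ x, x = V.toAffine.addX x₁ x₂ L := ⟨_, rfl⟩
  obtain ⟨y', hy'⟩ : ∃ y, y = V.toAffine.negAddY x₁ x₂ y₁ L := ⟨_, rfl⟩
  have hadd := add_pt h₁ h₂ hxy
  have hns := Affine.nonsingular_add h₁ h₂ hxy
  have ec1 : V.toAffine.addX x₁ x₂ (V.toAffine.slope x₁ x₂ y₁ y₂) = x₃ := by rw [hslope, hx₃]
  have ec2 : V.toAffine.addY x₁ x₂ y₁ (V.toAffine.slope x₁ x₂ y₁ y₂) = V.toAffine.negY x₃ y' := by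
    rw [hslope, hx₃, hy']
    rfl
  have h₃ : V.toAffine.Nonsingular x₃ (V.toAffine.negY x₃ y') := by
    rw [ec1, ec2] at hns
    exact hns
  have h₃' : V.toAffine.Nonsingular x₃ y' := (Affine.nonsingular_neg _ _).1 h₃
  have hsum : pt h₁ + pt h₂ = pt h₃ := by
    rw [hadd]
    exact pt_congr _ _ ec1 ec2
  obtain ⟨n, hn⟩ : ∃ n, n = y₁ - L * x₁ := ⟨_, rfl⟩
  have hmn : m * n = 1 := by
    rw [hn, ← k₁, hLm]
    ring
  have s₁ : y₁ = L * x₁ + n := by rw [hn]; ring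
  have s₂ : y₂ = L * x₂ + n := by rw [hn]; linear_combination r₁
  have s₃ : y' = L * x₃ + n := by
    rw [hy', hx₃, hn]
    unfold Affine.negAddY
    ring
  have e₁ : x₁ + x₂ + x₃ = L ^ 2 + V.a₁ * L - V.a₂ := by
    rw [hx₃]
    unfold Affine.addX
    ring
  have e₂ : x₁ * x₂ + x₁ * x₃ + x₂ * x₃ = V.a₄ - 2 * L * n - V.a₁ * n - V.a₃ * L := by
    rw [s₁, s₂] at r₂
    linear_combination (x₁ + x₂) * e₁ + r₂
  have e₃ : x₁ * x₂ * x₃ = -(V.a₆ - n ^ 2 - V.a₃ * n) := by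
    rw [s₁] at he₁
    linear_combination -x₁ ^ 2 * e₁ + x₁ * e₂ - he₁
  -- the cubic at infinity
  obtain ⟨A, hA⟩ : ∃ A, A = V.a₂ * l + V.a₄ * l ^ 2 + V.a₆ * l ^ 3 := ⟨_, rfl⟩
  obtain ⟨B, hB⟩ : ∃ B, B = V.a₂ * m + V.a₄ * (2 * (l * m)) + V.a₆ * (3 * (l ^ 2 * m)) -
      V.a₁ * l - V.a₃ * l ^ 2 := ⟨_, rfl⟩
  have LA : Le D 1 A := by
    rw [hA]
    refine c.add (c.add ?_ ?_) ?_
    · exact c.mono (by norm_num) (c.mul A2 Ll)
    · exact c.mono (by norm_num) (c.mul A4 (c.pow Ll 2))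
    · exact c.mono (by norm_num) (c.mul A6 (c.pow Ll 3))
  have LB : Le D 2 B := by
    rw [hB]
    refine c.sub (c.sub (c.add (c.add ?_ ?_) ?_) ?_) ?_
    · exact c.mono (by norm_num) (c.mul A2 Lm)
    · exact c.mono (by norm_num) (c.mul A4 (c.mul c.two (c.mul Ll Lm)))
    · exact c.mono (by norm_num) (c.mul A6 (c.mul c.three (c.mul (c.pow Ll 2) Lm)))
    · exact c.mono (by norm_num) (c.mul A1 Ll)
    · exact c.mono (by norm_num) (c.mul A3 (c.pow Ll 2))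
  have pA : 1 + A = (1 - l * x₁) * (1 - l * x₂) * (1 - l * x₃) := by
    rw [hA, hLm]
    linear_combination -(L * m) * e₁ - (L * m) ^ 2 * e₂ - (L * m) ^ 3 * e₃ +
      (-L ^ 3 * m * (m * n - 1) + V.a₁ * L ^ 2 * m - V.a₃ * L ^ 3 * m ^ 2) * hmn
  have pB : -B = m * ((x₁ + x₂ + x₃) - 2 * l * (x₁ * x₂ + x₁ * x₃ + x₂ * x₃) +
      3 * l ^ 2 * (x₁ * x₂ * x₃)) := by
    rw [hB, hLm]
    linear_combination -m * e₁ - 2 * L * m ^ 2 * e₂ - 3 * L ^ 2 * m ^ 3 * e₃ +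
      (-L ^ 2 * m * (3 * m * n - 1) + 2 * V.a₁ * L * m - 3 * V.a₃ * L ^ 2 * m ^ 2) * hmn
  have A0 := c.ne LA
  have hy3 : m * y' = 1 - l * x₃ := by
    rw [s₃, hLm]
    linear_combination hmn
  have hy0 : y' ≠ 0 := by
    intro h
    rw [h, mul_zero] at hy3
    rw [pA, ← hy3, mul_zero] at A0
    exact A0 rfl
  obtain ⟨z₃, hz₃⟩ : ∃ z, z = x₃ / y' := ⟨_, rfl⟩
  have zy₃ : z₃ * y' = x₃ := by rw [hz₃]; field_simp
  have q₁ : z₁ * (1 - l * x₁) = m * x₁ := by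
    linear_combination -z₁ * k₁ + m * zy₁
  have q₂ : z₂ * (1 - l * x₂) = m * x₂ := by
    linear_combination -z₂ * k₂ + m * zy₂
  have q₃ : z₃ * (1 - l * x₃) = m * x₃ := by
    linear_combination -z₃ * hy3 + m * zy₃
  have tot : (z₁ + z₂ + z₃) * (1 + A) = -B := by
    rw [pA, pB]
    linear_combination (1 - l * x₂) * (1 - l * x₃) * q₁ + (1 - l * x₁) * (1 - l * x₃) * q₂ +
      (1 - l * x₁) * (1 - l * x₂) * q₃
  have Ltot : Le D 2 (z₁ + z₂ + z₃) := by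
    have : z₁ + z₂ + z₃ = -B / (1 + A) := by
      rw [eq_div_iff A0]
      exact tot
    rw [this]
    exact c.div (c.neg LB) LA
  have Lz₃ : Le D 1 z₃ := by
    have : z₃ = (z₁ + z₂ + z₃) - z₁ - z₂ := by ring
    rw [this]
    exact c.sub (c.sub (c.mono (by norm_num) Ltot) Lz₁) Lz₂
  have Lw₃ : Le D 3 (y'⁻¹) := by
    have : y'⁻¹ = l * z₃ + m := by
      apply mul_right_cancel₀ hy0
      rw [inv_mul_cancel₀ hy0]
      linear_combination -l * zy₃ - hy3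
    rw [this]
    exact c.add (c.mul Ll Lz₃) Lm
  have by' : 1 < ‖y'‖ := by
    have h1 : ‖y'⁻¹‖ < 1 := by
      refine lt_of_le_of_lt Lw₃ ?_
      exact lt_of_le_of_lt (pow_le_of_le_one D0 D1.le (by norm_num)) D1
    rw [norm_inv] at h1
    by_contra hc
    push Not at hc
    have := one_le_inv_iff₀.2 ⟨norm_pos_iff.2 hy0, hc⟩
    linarith
  have bx : 1 < ‖x₃‖ := by
    by_contra hc
    push Not at hc
    have he := (Affine.equation_iff _ _).1 h₃'.1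
    have c0 : Ctx Ω 0 := ⟨na, le_rfl, by norm_num⟩
    have e : y' ^ 2 = (x₃ ^ 3 + V.a₂ * x₃ ^ 2 + V.a₄ * x₃ + V.a₆) - (V.a₁ * x₃ + V.a₃) * y' := by
      linear_combination he
    have hx0 := c0.le0 hc
    have t1 : ‖x₃ ^ 3 + V.a₂ * x₃ ^ 2 + V.a₄ * x₃ + V.a₆‖ ≤ 1 := by
      have : Le 0 0 (x₃ ^ 3 + V.a₂ * x₃ ^ 2 + V.a₄ * x₃ + V.a₆) := by
        refine c0.add (c0.add (c0.add (c0.pow hx0 3) ?_) ?_) ?_
        · exact c0.mul (c0.le0 hV.h2) (c0.pow hx0 2)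
        · exact c0.mul (c0.le0 hV.h4) hx0
        · exact c0.le0 hV.h6
      unfold Le at this
      rwa [pow_zero] at this
    have t2 : ‖V.a₁ * x₃ + V.a₃‖ ≤ 1 := by
      have : Le 0 0 (V.a₁ * x₃ + V.a₃) :=
        c0.add (c0.mul (c0.le0 hV.h1) hx0) (c0.le0 hV.h3)
      unfold Le at this
      rwa [pow_zero] at this
    have t3 : ‖y'‖ ^ 2 ≤ ‖y'‖ := by
      rw [← norm_pow, e, sub_eq_add_neg]
      refine (na _ _).trans (max_le (t1.trans by'.le) ?_)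
      rw [norm_neg, norm_mul]
      nlinarith
    nlinarith
  refine ⟨x₃, V.toAffine.negY x₃ y', h₃, hsum, bx, ?_⟩
  have hneg := fa_neg na hV h₃' bx
  rw [← hz₃] at hneg
  have Lneg : Le D 2 (x₃ / V.toAffine.negY x₃ y' + z₃) := by
    refine hneg.trans ?_
    have : ‖z₃‖ ≤ D := by
      have := Lz₃
      unfold Le at this
      rwa [pow_one] at this
    exact pow_le_pow_left₀ (norm_nonneg _) this 2
  have : x₃ / V.toAffine.negY x₃ y' - z₁ - z₂ =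
      (x₃ / V.toAffine.negY x₃ y' + z₃) - (z₁ + z₂ + z₃) := by ring
  rw [this]
  exact c.sub Lneg Ltot

end sum

/-- package FA -/
theorem fa : S_FA := by
  intro Ω _ na V hV
  have B0 : ∀ (x y : Ω) (h : V.toAffine.Nonsingular x y), Big 1 (pt h) ↔ 1 < ‖x‖ := by
    intro x y h
    constructor
    · intro hb
      exact hb x y h rfl
    · intro hb x' y' h' e
      obtain ⟨e1, -⟩ := pt_inj e
      rwa [← e1]
  have t0 : tt (0 : Pt V) = 0 := rfl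
  refine ⟨fun x y h hx => fa1 na hV h hx, ?_, ?_⟩
  · intro P hP
    rcases pt_cases P with rfl | ⟨x, y, h, rfl⟩
    · rw [neg_zero, t0]
      simp
    · rw [neg_pt]
      exact fa_neg na hV h ((B0 x y h).1 hP)
  · intro P R hP hR
    rcases pt_cases P with rfl | ⟨x, y, h, rfl⟩
    · rw [zero_add]
      refine ⟨hR, ?_⟩
      rw [t0, sub_zero, sub_self, norm_zero]
      positivity
    rcases pt_cases R with rfl | ⟨x', y', h', rfl⟩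
    · rw [add_zero]
      refine ⟨hP, ?_⟩
      rw [t0, sub_self, sub_zero, norm_zero]
      positivity
    have b := (B0 x y h).1 hP
    have b' := (B0 x' y' h').1 hR
    by_cases hxy : x = x' ∧ y = V.toAffine.negY x' y'
    · rw [add_pt_of_eq h h' hxy.1 hxy.2]
      refine ⟨?_, ?_⟩
      · intro u v huv e
        exact absurd e.symm (pt_ne _)
      · rw [t0]
        have h1 := fa_neg na hV h' b'
        have e : (0 : Ω) - tt (pt h) - tt (pt h') = -(x' / V.toAffine.negY x' y' + x' / y') := by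
          show (0 : Ω) - x / y - x' / y' = _
          rw [hxy.1, hxy.2]
          ring
        rw [e, norm_neg]
        exact h1.trans (pow_le_pow_left₀ (norm_nonneg _) (le_max_right _ _) 2)
    · obtain ⟨x₃, y₃, h₃, e, b₃, hb⟩ := fa_sum na hV h h' b b' hxy
      rw [e]
      exact ⟨(B0 _ _ h₃).2 b₃, hb⟩

end Pool.Agent.P8H29.UL
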