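import Pool.Agent.P8H17.UL.Stm

/-!
# Project UL, package LA: the first coordinates of `F P - P`
-/

set_option autoImplicit false

open WeierstrassCurve Polynomial

namespace Pool.Agent.P8H29.UL

open Pool.Agent.P8H17.UL

section LA

variable {κ : Type} [Field κ]

/-- the polynomials `T n` in `x` with `T n = y ^ n + y' ^ n` -/
noncomputable def Tr (V : WeierstrassCurve κ) : ℕ → κ[X]
  | 0 => 2
  | 1 => -(C V.a₁ * X + C V.a₃)
  | (n + 2) => -(C V.a₁ * X + C V.a₃) * Tr V (n + 1) +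
      (X ^ 3 + C V.a₂ * X ^ 2 + C V.a₄ * X + C V.a₆) * Tr V n

lemma Tr_deg (V : WeierstrassCurve κ) (n : ℕ) :
    2 * (Tr V n).natDegree ≤ 3 * n ∧ 2 * (Tr V (n + 1)).natDegree ≤ 3 * (n + 1) := by
  induction n with
  | zero =>
    refine ⟨?_, ?_⟩
    · have h : (Tr V 0).natDegree = 0 := by
        show (2 : κ[X]).natDegree = 0
        exact natDegree_ofNat 2
      rw [h]
    · have h : (Tr V 1).natDegree ≤ 1 := by
        show (-(C V.a₁ * X + C V.a₃) : κ[X]).natDegree ≤ 1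
        rw [natDegree_neg]
        compute_degree
      show 2 * (Tr V 1).natDegree ≤ _
      omega
  | succ n ih =>
    refine ⟨ih.2, ?_⟩
    have e : Tr V (n + 1 + 1) = -(C V.a₁ * X + C V.a₃) * Tr V (n + 1) +
      (X ^ 3 + C V.a₂ * X ^ 2 + C V.a₄ * X + C V.a₆) * Tr V n := rfl
    have h1 : (-(C V.a₁ * X + C V.a₃) : κ[X]).natDegree ≤ 1 := by
      rw [natDegree_neg]
      compute_degree
    have h3 : (X ^ 3 + C V.a₂ * X ^ 2 + C V.a₄ * X + C V.a₆ : κ[X]).natDegree ≤ 3 := by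
      compute_degree
    have d1 : (-(C V.a₁ * X + C V.a₃) * Tr V (n + 1)).natDegree ≤ 1 + (Tr V (n + 1)).natDegree :=
      natDegree_mul_le.trans (by omega)
    have d2 : ((X ^ 3 + C V.a₂ * X ^ 2 + C V.a₄ * X + C V.a₆) * Tr V n).natDegree
        ≤ 3 + (Tr V n).natDegree := natDegree_mul_le.trans (by omega)
    have d3 : (Tr V (n + 1 + 1)).natDegree ≤
        max (1 + (Tr V (n + 1)).natDegree) (3 + (Tr V n).natDegree) := by
      rw [e]
      exact (natDegree_add_le _ _).trans (max_le_max d1 d2)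
    have := ih.1
    have := ih.2
    rcases le_max_iff.1 d3 with h | h <;> omega

lemma Tr_eval (V : WeierstrassCurve κ) {x y y' : κ} (h1 : y + y' = -(V.a₁ * x + V.a₃))
    (h2 : y * y' = -(x ^ 3 + V.a₂ * x ^ 2 + V.a₄ * x + V.a₆)) (n : ℕ) :
    (Tr V n).eval x = y ^ n + y' ^ n ∧ (Tr V (n + 1)).eval x = y ^ (n + 1) + y' ^ (n + 1) := by
  induction n with
  | zero =>
    refine ⟨?_, ?_⟩
    · show (2 : κ[X]).eval x = _
      simp
      norm_num
    · show (-(C V.a₁ * X + C V.a₃) : κ[X]).eval x = _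
      simp only [eval_neg, eval_add, eval_mul, eval_C, eval_X]
      rw [← h1]
      ring
  | succ n ih =>
    refine ⟨ih.2, ?_⟩
    have e : Tr V (n + 1 + 1) = -(C V.a₁ * X + C V.a₃) * Tr V (n + 1) +
      (X ^ 3 + C V.a₂ * X ^ 2 + C V.a₄ * X + C V.a₆) * Tr V n := rfl
    rw [e]
    simp only [eval_neg, eval_add, eval_mul, eval_C, eval_X, eval_pow]
    rw [ih.1, ih.2]
    linear_combination -(y ^ (n + 1) + y' ^ (n + 1)) * h1 + (y ^ n + y' ^ n) * h2

/-- the singular point is unique -/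
lemma sing_unique (V : WeierstrassCurve κ) {x₁ y₁ x₂ y₂ : κ}
    (e₁ : y₁ ^ 2 + V.a₁ * x₁ * y₁ + V.a₃ * y₁ = x₁ ^ 3 + V.a₂ * x₁ ^ 2 + V.a₄ * x₁ + V.a₆)
    (e₂ : y₂ ^ 2 + V.a₁ * x₂ * y₂ + V.a₃ * y₂ = x₂ ^ 3 + V.a₂ * x₂ ^ 2 + V.a₄ * x₂ + V.a₆)
    (f₁ : V.a₁ * y₁ = 3 * x₁ ^ 2 + 2 * V.a₂ * x₁ + V.a₄)
    (f₂ : V.a₁ * y₂ = 3 * x₂ ^ 2 + 2 * V.a₂ * x₂ + V.a₄)
    (g₁ : 2 * y₁ + V.a₁ * x₁ + V.a₃ = 0) (g₂ : 2 * y₂ + V.a₁ * x₂ + V.a₃ = 0) : x₁ = x₂ := by
  have h1 : (y₁ - y₂) ^ 2 = -(x₁ - x₂) ^ 2 * (x₂ + 2 * x₁ + V.a₂) := by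
    linear_combination e₁ - e₂ - (x₁ - x₂) * f₁ - (y₁ - y₂) * g₂
  have h2 : (y₁ - y₂) ^ 2 = -(x₁ - x₂) ^ 2 * (x₁ + 2 * x₂ + V.a₂) := by
    linear_combination e₂ - e₁ - (x₂ - x₁) * f₂ - (y₂ - y₁) * g₁
  have h3 : (x₁ - x₂) ^ 3 = 0 := by linear_combination h1 - h2
  exact sub_eq_zero.1 (pow_eq_zero_iff (by norm_num) |>.1 h3)

lemma Q_zero [Infinite κ] {Q : ℕ} (hQ : 1 < Q) (hadd : ∀ x y : κ, (x + y) ^ Q = x ^ Q + y ^ Q) :
    (Q : κ) = 0 := by
  have h : ((X + 1 : κ[X]) ^ Q - X ^ Q - 1) = 0 := by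
    apply Polynomial.funext
    intro x
    simp [hadd]
  have h2 := congrArg (fun p => (derivative p).eval 0) h
  have h3 : Q - 1 ≠ 0 := by omega
  simpa [derivative_pow, zero_pow h3] using h2

/-- `X ^ Q - X` -/
noncomputable def hh (κ : Type) [Field κ] (Q : ℕ) : κ[X] := X ^ Q - X

lemma hh_deg {Q : ℕ} (hQ : 1 < Q) : (hh κ Q).natDegree ≤ Q := by
  unfold hh
  refine (natDegree_sub_le _ _).trans (max_le ?_ ?_)
  · exact natDegree_X_pow_le Q
  · exact natDegree_X_le.trans (by omega)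

lemma hh_der {Q : ℕ} (h0 : (Q : κ) = 0) : derivative (hh κ Q) = -1 := by
  unfold hh
  simp [derivative_pow, h0]

lemma hh_ne {Q : ℕ} (h0 : (Q : κ) = 0) : hh κ Q ≠ 0 := by
  intro h
  have := hh_der h0
  rw [h, derivative_zero] at this
  have h2 := congrArg (fun p => Polynomial.eval 0 p) this
  simp at h2

lemma hh_sq {Q : ℕ} (h0 : (Q : κ) = 0) (r : κ) : ¬ (X - C r) ^ 3 ∣ (hh κ Q) ^ 2 := by
  intro hd
  have hp : Prime (X - C r : κ[X]) := prime_X_sub_C r
  have h1 : (X - C r) ∣ hh κ Q := by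
    have : (X - C r) ∣ (hh κ Q) ^ 2 := (dvd_pow_self _ (by norm_num)).trans hd
    exact hp.dvd_of_dvd_pow this
  obtain ⟨k, hk⟩ := h1
  have h2 : (X - C r) ∣ k ^ 2 := by
    obtain ⟨m, hm⟩ := hd
    refine ⟨m, ?_⟩
    have h3 : (X - C r : κ[X]) ^ 2 ≠ 0 := pow_ne_zero _ hp.ne_zero
    apply mul_left_cancel₀ h3
    rw [← mul_pow, ← hk, hm]
    ring
  obtain ⟨m, hm⟩ := hp.dvd_of_dvd_pow h2
  have h4 := hh_der h0
  rw [hk, hm] at h4
  have h5 := congrArg (fun p => Polynomial.eval r p) h4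
  simp at h5

/-- the set of roots of `X ^ Q - X` -/
noncomputable def RR (κ : Type) [Field κ] (Q : ℕ) : Finset κ := by
  classical
  exact (hh κ Q).roots.toFinset

lemma mem_RR {Q : ℕ} (h0 : (Q : κ) = 0) (x : κ) : x ∈ RR κ Q ↔ x ^ Q = x := by
  classical
  unfold RR
  rw [Multiset.mem_toFinset, mem_roots (hh_ne h0)]
  unfold hh
  simp [IsRoot, sub_eq_zero]

lemma RR_card {Q : ℕ} (hQ : 1 < Q) : (RR κ Q).card ≤ Q := by
  classical
  unfold RR
  exact (Multiset.toFinset_card_le _).trans ((card_roots' _).trans (hh_deg hQ))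

/-- the part of small degree -/
noncomputable def BB (V : WeierstrassCurve κ) (Q : ℕ) : κ[X] :=
  C V.a₄ * X ^ Q + C V.a₆ + (C V.a₂ * X ^ 2 + C V.a₄ * X + C V.a₆) + Tr V (Q + 1) +
    X ^ (Q + 2) + C (2 * V.a₂) * X ^ (Q + 1) - C V.a₂ * X ^ 2

lemma BB_deg (V : WeierstrassCurve κ) {Q : ℕ} (hQ : 1 < Q) : (BB V Q).natDegree ≤ 2 * Q := by
  unfold BB
  have hT := (Tr_deg V (Q + 1)).1
  refine (natDegree_sub_le _ _).trans (max_le ?_ ?_)
  · refine natDegree_add_le_of_degree_le (natDegree_add_le_of_degree_le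
      (natDegree_add_le_of_degree_le (natDegree_add_le_of_degree_le
      (natDegree_add_le_of_degree_le ?_ ?_) ?_) ?_) ?_) ?_
    · exact (natDegree_C_mul_X_pow_le _ _).trans (by omega)
    · simp
    · refine natDegree_add_le_of_degree_le (natDegree_add_le_of_degree_le ?_ ?_) ?_
      · exact (natDegree_C_mul_X_pow_le _ _).trans (by omega)
      · exact (natDegree_C_mul_le _ _).trans (natDegree_X_le.trans (by omega))
      · simp
    · omega
    · exact (natDegree_X_pow_le _).trans (by omega)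
    · exact (natDegree_C_mul_X_pow_le _ _).trans (by omega)
  · exact (natDegree_C_mul_X_pow_le _ _).trans (by omega)

/-- the polynomial `N - c D` -/
noncomputable def PP (V : WeierstrassCurve κ) (Q : ℕ) (c : κ) : κ[X] :=
  X ^ (2 * Q + 1) + (BB V Q - C c * (hh κ Q) ^ 2)

lemma PP_deg (V : WeierstrassCurve κ) {Q : ℕ} (hQ : 1 < Q) (c : κ) :
    (PP V Q c).natDegree = 2 * Q + 1 := by
  unfold PP
  have h : (BB V Q - C c * (hh κ Q) ^ 2).natDegree ≤ 2 * Q := by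
    refine (natDegree_sub_le _ _).trans (max_le (BB_deg V hQ) ?_)
    refine (natDegree_C_mul_le _ _).trans ?_
    rw [natDegree_pow]
    have := hh_deg (κ := κ) hQ
    omega
  have h2 : (BB V Q - C c * (hh κ Q) ^ 2).degree < (X ^ (2 * Q + 1) : κ[X]).degree := by
    rw [degree_X_pow]
    refine (degree_le_natDegree).trans_lt ?_
    exact_mod_cast Nat.lt_succ_of_le h
  apply natDegree_eq_of_degree_eq_some
  rw [degree_add_eq_left_of_degree_lt h2, degree_X_pow]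

lemma PP_ne (V : WeierstrassCurve κ) {Q : ℕ} (hQ : 1 < Q) (c : κ) : PP V Q c ≠ 0 := by
  intro h
  have := PP_deg V hQ c
  rw [h, natDegree_zero] at this
  omega

/-- a root outside `RR` -/
lemma exists_root [IsAlgClosed κ] (V : WeierstrassCurve κ) {Q : ℕ} (hQ : 1 < Q)
    (c : κ) (hc : ∀ r ∈ RR κ Q, ¬ (X - C r) ^ 3 ∣ PP V Q c) :
    ∃ x : κ, x ∉ RR κ Q ∧ (PP V Q c).eval x = 0 := by
  classical
  by_contra hcon
  push Not at hcon
  have hcard : Multiset.card (PP V Q c).roots = 2 * Q + 1 := by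
    rw [← PP_deg V hQ c]
    exact (splits_iff_card_roots.1 (IsAlgClosed.splits _))
  have hsub : (PP V Q c).roots.toFinset ⊆ RR κ Q := by
    intro x hx
    rw [Multiset.mem_toFinset, mem_roots (PP_ne V hQ c)] at hx
    by_contra hx2
    exact hcon x hx2 hx
  have h1 : Multiset.card (PP V Q c).roots ≤ ∑ r ∈ (PP V Q c).roots.toFinset, 2 := by
    rw [← Multiset.toFinset_sum_count_eq]
    refine Finset.sum_le_sum fun r hr => ?_
    rw [count_roots]
    by_contra h3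
    push Not at h3
    exact hc r (hsub hr) ((le_rootMultiplicity_iff (PP_ne V hQ c)).1 h3)
  rw [Finset.sum_const, smul_eq_mul] at h1
  have h2 := Finset.card_le_card hsub
  have h3 := RR_card (κ := κ) hQ
  omega

lemma la : S_LA := by
  intro κ _ _ Q hQ hadd V h1 h2 h3 h4 h6
  classical
  have : Infinite κ := IsAlgClosed.instInfinite
  have hQ0 : (Q : κ) = 0 := Q_zero hQ hadd
  have hneg : ∀ x : κ, (-x) ^ Q = -(x ^ Q) := by
    intro x
    have := hadd x (-x)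
    rw [add_neg_cancel, zero_pow (by omega)] at this
    exact (neg_eq_of_add_eq_zero_right this.symm).symm
  -- the exceptional values
  have hfin : ∀ r ∈ RR κ Q, {c : κ | (X - C r) ^ 3 ∣ PP V Q c}.Finite := by
    intro r hr
    apply Set.Subsingleton.finite
    intro c hc c' hc'
    by_contra hne
    have hd : (X - C r) ^ 3 ∣ PP V Q c - PP V Q c' := dvd_sub hc hc'
    have e : PP V Q c - PP V Q c' = C (c' - c) * (hh κ Q) ^ 2 := by
      unfold PP
      rw [C_sub]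
      ring
    rw [e] at hd
    have hu : IsUnit (C (c' - c) : κ[X]) := isUnit_C.2 (sub_ne_zero.2 (Ne.symm hne)).isUnit
    exact hh_sq hQ0 r ((hu.dvd_mul_left).1 hd)
  have hfin2 : (⋃ r ∈ RR κ Q, {c : κ | (X - C r) ^ 3 ∣ PP V Q c}).Finite :=
    Set.Finite.biUnion (Finset.finite_toSet _) hfin
  refine ⟨hfin2.toFinset, ?_⟩
  intro c hc
  obtain ⟨x, hx, hroot⟩ := exists_root V hQ c (by
    intro r hr hd
    apply hc
    rw [Set.Finite.mem_toFinset]
    exact Set.mem_biUnion hr hd)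
  have hxQ : x ^ Q ≠ x := fun h => hx ((mem_RR hQ0 x).2 h)
  -- the point over x
  obtain ⟨y, hy⟩ : ∃ y : κ, y ^ 2 + V.a₁ * x * y + V.a₃ * y =
      x ^ 3 + V.a₂ * x ^ 2 + V.a₄ * x + V.a₆ := by
    have hdeg : (X ^ 2 + (C (V.a₁ * x + V.a₃) * X -
        C (x ^ 3 + V.a₂ * x ^ 2 + V.a₄ * x + V.a₆)) : κ[X]).degree = 2 := by
      have : (C (V.a₁ * x + V.a₃) * X -
        C (x ^ 3 + V.a₂ * x ^ 2 + V.a₄ * x + V.a₆) : κ[X]).degree < (X ^ 2 : κ[X]).degree := by
        rw [degree_X_pow]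
        refine lt_of_le_of_lt (b := 1) ?_ (by norm_num)
        compute_degree
      rw [degree_add_eq_left_of_degree_lt this, degree_X_pow]
      rfl
    obtain ⟨y, hy⟩ := IsAlgClosed.exists_root _ (by rw [hdeg]; norm_num)
    refine ⟨y, ?_⟩
    simp only [IsRoot, eval_add, eval_sub, eval_mul, eval_C, eval_X, eval_pow] at hy
    linear_combination hy
  have hns : V.toAffine.Nonsingular x y := by
    rw [Affine.nonsingular_iff', Affine.equation_iff]
    refine ⟨hy, ?_⟩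
    by_contra hcon
    push Not at hcon
    obtain ⟨f1, g1⟩ := hcon
    apply hxQ
    have P2 : ∀ u v : κ, (u + v) ^ Q = u ^ Q + v ^ Q := hadd
    have S2 : ∀ u v : κ, (u - v) ^ Q = u ^ Q - v ^ Q := by
      intro u v
      rw [sub_eq_add_neg, hadd, hneg, ← sub_eq_add_neg]
    have nat2 : (2 : κ) ^ Q = 2 := by
      have := hadd 1 1
      rw [one_pow] at this
      norm_num at this
      exact this
    have nat3 : (3 : κ) ^ Q = 3 := by
      have := hadd 2 1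
      rw [one_pow, nat2] at this
      norm_num at this
      exact this
    have E := congrArg (fun t => t ^ Q) hy
    have F := congrArg (fun t => t ^ Q) f1
    have G := congrArg (fun t => t ^ Q) g1
    simp only [P2, S2, mul_pow, h1, h2, h3, h4, h6, nat2, nat3] at E F G
    rw [zero_pow (by omega)] at F G
    refine sing_unique V (x₁ := x ^ Q) (y₁ := y ^ Q) (x₂ := x) (y₂ := y) ?_ hy ?_ ?_ ?_ g1
    · linear_combination E
    · linear_combination F
    · linear_combination f1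
    · linear_combination G
  refine ⟨x, y, hxQ, hns, ?_⟩
  have hD : x ^ Q - x ≠ 0 := sub_ne_zero.2 hxQ
  unfold Affine.addX Affine.negY
  set y' := -y - V.a₁ * x - V.a₃ with hy'
  have s1 : y + y' = -(V.a₁ * x + V.a₃) := by rw [hy']; ring
  have s2 : y * y' = -(x ^ 3 + V.a₂ * x ^ 2 + V.a₄ * x + V.a₆) := by
    rw [hy']; linear_combination -hy
  have hT := (Tr_eval V s1 s2 (Q + 1)).1
  have E := congrArg (fun t => t ^ Q) hy
  have s1Q := congrArg (fun t => t ^ Q) s1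
  simp only [hadd, hneg, mul_pow, h1, h2, h3, h4, h6] at E s1Q
  have e3 : (x ^ 3) ^ Q = (x ^ Q) ^ 3 := by rw [← pow_mul, ← pow_mul, mul_comm]
  have e2 : (x ^ 2) ^ Q = (x ^ Q) ^ 2 := by rw [← pow_mul, ← pow_mul, mul_comm]
  have e2' : (y ^ 2) ^ Q = (y ^ Q) ^ 2 := by rw [← pow_mul, ← pow_mul, mul_comm]
  rw [e3, e2, e2'] at E
  have r1 : (PP V Q c).eval x = (x ^ Q) ^ 2 * x + (V.a₄ * x ^ Q + V.a₆ + (V.a₂ * x ^ 2 + V.a₄ * x
      + V.a₆) + (y ^ Q * y + y' ^ Q * y') + x ^ Q * x ^ 2 + 2 * V.a₂ * (x ^ Q * x) - V.a₂ * x ^ 2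
      - c * (x ^ Q - x) ^ 2) := by
    unfold PP BB hh
    simp only [eval_add, eval_sub, eval_mul, eval_C, eval_X, eval_pow, hT]
    ring
  rw [r1] at hroot
  have key : (y ^ Q - y') ^ 2 + V.a₁ * (y ^ Q - y') * (x ^ Q - x) -
      (V.a₂ + x ^ Q + x) * (x ^ Q - x) ^ 2 = c * (x ^ Q - x) ^ 2 := by
    linear_combination E + y' * s1 - s2 - y ^ Q * s1 - y' * s1Q + hroot
  field_simp
  linear_combination key

end LA

end Pool.Agent.P8H29.UL
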